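import Pool.Agent.H72.G4.Row
import Pool.Agent.H80.G4.Mir

/-!
# Reversal, mirror image and shift for regions, contexts and rows

`Rev D` reverses all arcs, `Mir T` is the mirror image of the complex. Regions, the context of the
discharging and the rows `PCok` are invariant under both, and `PCok` under a shift of the rotation.
-/

set_option autoImplicit false

namespace Pool.Agent.H91.G4

open Relation Pool.Agent.H13.DA Pool.Agent.H72.G4 Pool.Agent.H21.G4 Pool.Agent.H96.G4
open Pool.Agent.H32.G4 Pool.Agent.H13.G4 Pool.Agent.H80.G4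

section

variable {V : Type*} [DecidableEq V] {T X : Finset (V × V × V)} {D : V → V → Prop} {a b c : V}
  {Z : List V}

omit [DecidableEq V] in
theorem face_swap (hc : IsCx T) {x y z : V} (h : Face T x y z) : Face T y x z := by
  rcases h with h | h
  · exact Or.inr (hc.rot h)
  · exact Or.inl (hc.rot (hc.rot h))

omit [DecidableEq V] in
theorem sh_symm (hc : IsCx T) {x y : V} (h : Sh T D x y) : Sh T D y x := by
  obtain ⟨z, h1, h2, h3⟩ := h
  exact ⟨z, h1, face_swap hc h2, h3.symm⟩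

omit [DecidableEq V] in
private theorem sh_rev1 (hT : Ts T D a b c) {x y : V} (hx : Re D x) (hy : Re D y)
    (h : Sh T D x y) : Sh T (Rev D) x y := by
  obtain ⟨z, hz, hf, hd⟩ := h
  refine ⟨z, re_rev.2 hz, hf, ?_⟩
  have a1 : Adj T z x := by
    rcases hf with k | k
    · exact Or.inl ⟨y, hT.pl.disc.cx.rot (hT.pl.disc.cx.rot k)⟩
    · exact Or.inr ⟨y, k⟩
  have a2 : Adj T z y := by
    rcases hf with k | k
    · exact Or.inr ⟨x, hT.pl.disc.cx.rot k⟩
    · exact Or.inl ⟨x, hT.pl.disc.cx.rot k⟩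
  have h1 : D z x ∨ D x z := hT.re _ _ a1 hz hx
  have h2 : D z y ∨ D y z := hT.re _ _ a2 hz hy
  have n1 : D z x → ¬ D x z := fun k => hT.pl.asymm _ _ k
  have n2 : D z y → ¬ D y z := fun k => hT.pl.asymm _ _ k
  change D x z ↔ D y z
  tauto

/-- `Sh` under reversal; the two ends have to be real -/
theorem Sh_rev (hT : Ts T D a b c) {x y : V} (hx : Re D x) (hy : Re D y) :
    Sh T (Rev D) x y ↔ Sh T D x y :=
  ⟨fun h => sh_rev1 (ts_rev.2 hT) (re_rev.2 hx) (re_rev.2 hy) h, sh_rev1 hT hx hy⟩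

omit [DecidableEq V] in
theorem Sh_mir {x y : V} : Sh (Mir T) D x y ↔ Sh T D x y :=
  ⟨fun ⟨z, h1, h2, h3⟩ => ⟨z, h1, face_mir.1 h2, h3⟩,
    fun ⟨z, h1, h2, h3⟩ => ⟨z, h1, face_mir.2 h2, h3⟩⟩

omit [DecidableEq V] in
theorem In_rev {v : V} : In X (Rev D) Z v ↔ In X D Z v :=
  ⟨fun ⟨h1, h2, h3⟩ => ⟨h1, re_rev.1 h2, h3⟩, fun ⟨h1, h2, h3⟩ => ⟨h1, re_rev.2 h2, h3⟩⟩

omit [DecidableEq V] in
theorem In_mir {v : V} : In (Mir X) D Z.reverse v ↔ In X D Z v := by
  unfold In
  rw [verts_mir, List.mem_reverse]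

theorem nin_rev : nin X (Rev D) Z = nin X D Z := by
  classical
  unfold nin
  congr 1
  ext v
  simp only [Finset.mem_filter, re_rev]

theorem nin_mir : nin (Mir X) D Z.reverse = nin X D Z := by
  classical
  unfold nin
  congr 1
  ext v
  simp only [Finset.mem_filter, verts_mir, List.mem_reverse]

private theorem reg_rev1 (h : Reg T X D Z) : Reg T X (Rev D) Z where
  sub := h.sub
  disc := h.disc
  bd := h.bd
  sep := h.sep
  re := fun v hv => re_rev.2 (h.re v hv)

theorem reg_rev : Reg T X (Rev D) Z ↔ Reg T X D Z := ⟨fun h => reg_rev1 h, reg_rev1⟩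

omit [DecidableEq V] in
private theorem chl_rev1 (h : Chl D Z) : Chl (Rev D) Z where
  arc := fun x y k => ar_rev.2 (h.arc x y k)
  ch := fun x y hx hy k => h.ch x y hx hy (ar_rev.1 k)

omit [DecidableEq V] in
theorem chl_rev : Chl (Rev D) Z ↔ Chl D Z := ⟨fun h => chl_rev1 h, chl_rev1⟩

omit [DecidableEq V] in
private theorem no2_rev1 (h : No2 X D Z) : No2 X (Rev D) Z :=
  fun v p r h1 h2 w hw hwZ hr k1 => h v p r h1 h2 w hw hwZ (re_rev.1 hr) k1

omit [DecidableEq V] in
theorem no2_rev : No2 X (Rev D) Z ↔ No2 X D Z := ⟨fun h => no2_rev1 h, no2_rev1⟩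

private theorem rg_rev1 (h : Rg T X D Z) : Rg T X (Rev D) Z where
  reg := reg_rev.2 h.reg
  chl := chl_rev.2 h.chl
  len := h.len
  good := fun u h1 h2 h3 => good_rev.2 (h.good u h1 (re_rev.1 h2) h3)
  inn := by
    obtain ⟨u, h1, h2, h3⟩ := h.inn
    exact ⟨u, h1, re_rev.2 h2, h3⟩
  no2 := no2_rev.2 h.no2

theorem rg_rev : Rg T X (Rev D) Z ↔ Rg T X D Z := ⟨fun h => rg_rev1 h, rg_rev1⟩

theorem rg_mir (hc : IsCx T) (h : Rg T X D Z) : Rg (Mir T) (Mir X) D Z.reverse where
  reg := reg_mir h.reg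
  chl := chl_mir h.chl
  len := by rw [List.length_reverse]; exact h.len
  good := fun u h1 h2 h3 => by
    rw [verts_mir] at h1
    exact good_mir hc (h.good u h1 h2 fun k => h3 (List.mem_reverse.2 k))
  inn := by
    obtain ⟨u, h1, h2, h3⟩ := h.inn
    exact ⟨u, by rw [verts_mir]; exact h1, h2, fun k => h3 (List.mem_reverse.1 k)⟩
  no2 := no2_mir h.reg.disc.cx h.no2

private theorem ctx_rev1 (h : Ctx T X D a b c Z) : Ctx T X (Rev D) a b c Z where
  reg := reg_rev.2 h.reg
  good := fun u h1 h2 h3 => good_rev.2 (h.good u h1 (re_rev.1 h2) h3)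
  four := fun Y C h1 h2 h3 h4 h5 => by
    rw [nin_rev]
    exact h.four Y C h1 (reg_rev.1 h2) (chl_rev.1 h3) h4 h5
  five := fun Y C h1 h2 h3 h4 h5 => by
    rw [nin_rev]
    exact h.five Y C h1 (reg_rev.1 h2) (chl_rev.1 h3) h4 h5
  bnd := h.bnd.imp id fun ⟨h1, h2⟩ => ⟨rg_rev.2 h1, h2⟩

/-- **The context under reversal of all arcs.** -/
theorem ctx_rev : Ctx T X (Rev D) a b c Z ↔ Ctx T X D a b c Z :=
  ⟨fun h => ctx_rev1 h, ctx_rev1⟩

/-- **The context under the mirror image.** -/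
theorem ctx_mir (hc : IsCx T) (h : Ctx T X D a b c Z) : Ctx (Mir T) (Mir X) D c b a Z.reverse where
  reg := reg_mir h.reg
  good := fun u h1 h2 h3 => by
    rw [verts_mir] at h1
    exact good_mir hc (h.good u h1 h2 fun k => h3 (List.mem_reverse.2 k))
  four := fun Y C h1 h2 h3 h4 h5 => by
    have r := reg_mir h2
    rw [mir_mir] at r
    have k := h.four (Mir Y) C.reverse (sub_mir h1) r (chl_mir h3)
      (by rw [List.length_reverse]; exact h4)
      (by
        obtain ⟨w, w1, w2⟩ := h5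
        exact ⟨w, List.mem_reverse.2 w1, fun k => w2 (List.mem_reverse.2 k)⟩)
    rwa [nin_mir] at k
  five := fun Y C h1 h2 h3 h4 h5 => by
    have r := reg_mir h2
    rw [mir_mir] at r
    have k := h.five (Mir Y) C.reverse (sub_mir h1) r (chl_mir h3)
      (by rw [List.length_reverse]; exact h4)
      (by
        obtain ⟨w, w1, w2⟩ := h5
        exact ⟨w, List.mem_reverse.2 w1, fun k => w2 (List.mem_reverse.2 k)⟩)
    rwa [nin_mir] at k
  bnd := by
    rcases h.bnd with ⟨rfl, rfl⟩ | ⟨h1, h2⟩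
    · exact Or.inl ⟨rfl, rfl⟩
    · refine Or.inr ⟨rg_mir hc h1, ?_⟩
      rw [List.length_reverse]
      exact h2

section pc

variable {u : V} {n : ℕ} {x : Fin (n + 1) → V} {j : Fin (n + 1)}

private theorem pcok_rev1 (hT : Ts T D a b c) (h : PCok T X D Z u x j) :
    PCok T X (Rev D) Z u x j := by
  intro f d hd hadj har i1 i2 i3 s1 s2
  rw [In_rev] at i1 i2 i3
  rw [Sh_rev hT i1.2.1 i2.2.1] at s1
  rw [Sh_rev hT i2.2.1 i3.2.1] at s2
  exact h f d (fun k => hd (re_rev.2 k)) hadj har.symm i1 i2 i3 s1 s2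

/-- the row under reversal of all arcs -/
theorem pcok_rev (hT : Ts T D a b c) : PCok T X (Rev D) Z u x j ↔ PCok T X D Z u x j :=
  ⟨fun h => pcok_rev1 (ts_rev.2 hT) h, pcok_rev1 hT⟩

omit [DecidableEq V] in
/-- the row depends only on the two neighbours, and is symmetric in them -/
theorem pcok_mir (hc : IsCx T) (h : PCok T X D Z u x j) {m : ℕ} {y : Fin (m + 1) → V}
    {i : Fin (m + 1)} (h1 : y i = x (j + 1)) (h2 : y (i + 1) = x j) :
    PCok (Mir T) (Mir X) D Z.reverse u y i := by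
  intro f d hd hadj har i1 i2 i3 s1 s2
  rw [h1, h2] at hadj har
  rw [h1] at i1 s1
  rw [h2] at i3 s2
  rw [In_mir] at i1 i2 i3
  rw [Sh_mir] at s1 s2
  refine h f d hd (fun z => ?_) ?_ i3 i2 i1 (sh_symm hc s2) (sh_symm hc s1)
  · rw [← adj_mir hc, hadj z]
    tauto
  · rcases har with ⟨k1, k2, k3, k4⟩ | ⟨k1, k2, k3, k4⟩
    · exact Or.inr ⟨k4, k3, k2, k1⟩
    · exact Or.inl ⟨k4, k3, k2, k1⟩

omit [DecidableEq V] in
/-- the row of the backward rotation `rot_mir` -/
theorem pcok_mirror (hc : IsCx T) (h : PCok T X D Z u x j) :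
    PCok (Mir T) (Mir X) D Z.reverse u (fun i => x (-i)) (-(j + 1)) := by
  refine pcok_mir hc h ?_ ?_
  · rw [neg_neg]
  · congr 1
    abel

omit [DecidableEq V] in
/-- the row of the original rotation from the row of the mirror image -/
theorem pcok_of_mirror (hc : IsCx T)
    (h : PCok (Mir T) (Mir X) D Z.reverse u (fun i => x (-i)) (-(j + 1))) :
    PCok T X D Z u x j := by
  have k := pcok_mir (cx_mir hc) h (y := x) (i := j)
    (by
      congr 1
      abel)
    (by rw [neg_neg])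
  rwa [mir_mir, mir_mir, List.reverse_reverse] at k

omit [DecidableEq V] in
/-- the row of the shifted rotation -/
theorem pcok_shift {k : Fin (n + 1)} :
    PCok T X D Z u (fun i => x (k + i)) j ↔ PCok T X D Z u x (k + j) := by
  unfold PCok
  simp only [add_assoc]

end pc

end

section row

variable {V : Type*} [DecidableEq V] {n : ℕ} {W : Fin (n + 1) → CT} {j k : Fin (n + 1)}

/-- the row: the quad corner `j` of the word `W` -/
def Row (V : Type*) [DecidableEq V] (n : ℕ) (W : Fin (n + 1) → CT) (j : Fin (n + 1)) : Prop :=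
  ∀ (T X : Finset (V × V × V)) (D : V → V → Prop) (a b c : V) (Z : List V) (u : V)
    (x : Fin (n + 1) → V), MCw T D a b c → Ts T D a b c → Ctx T X D a b c Z → In X D Z u →
    Rot T D u n x W → PCok T X D Z u x j

/-- the row of the mirrored word -/
theorem Row.mir (h : Row V n W j) : Row V n (fun i => ctm (W (-(i + 1)))) (-(j + 1)) := by
  intro T X D a b c Z u x hM hT hC hu R
  have R' := rot_mir hT R
  have e : (fun i : Fin (n + 1) => ctm (ctm (W (-(-(i + 1) + 1))))) = W := by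
    funext i
    rw [ctm_ctm]
    congr 1
    abel
  have R'' : Rot (Mir T) D u n (fun i => x (-i)) W := by
    rw [← e]
    exact R'
  have key := h (Mir T) (Mir X) D c b a Z.reverse u (fun i => x (-i)) (mcw_mir hM) (ts_mir hT)
    (ctx_mir hT.pl.disc.cx hC) (In_mir.2 hu) R''
  refine pcok_of_mirror hT.pl.disc.cx ?_
  have e2 : -(-(j + 1) + 1) = j := by abel
  rw [e2]
  exact key

/-- the row of the shifted word -/
theorem Row.shift (h : Row V n (fun i => W (k + i)) j) : Row V n W (k + j) := by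
  intro T X D a b c Z u x hM hT hC hu R
  exact pcok_shift.1 (h T X D a b c Z u _ hM hT hC hu (R.shift k))

/-- it suffices to prove a row when the arc `u x0` goes out -/
theorem row_of_out
    (h : ∀ (T X : Finset (V × V × V)) (D : V → V → Prop) (a b c : V) (Z : List V) (u : V)
      (x : Fin (n + 1) → V), MCw T D a b c → Ts T D a b c → Ctx T X D a b c Z → In X D Z u →
      Rot T D u n x W → D u (x 0) → PCok T X D Z u x j) : Row V n W j := by
  intro T X D a b c Z u x hM hT hC hu R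
  rcases (R.nb (x 0)).2 ⟨0, rfl⟩ with k | k
  · exact h T X D a b c Z u x hM hT hC hu R k
  · exact (pcok_rev hT).1 (h T X (Rev D) a b c Z u x (mcw_rev.2 hM) (ts_rev.2 hT) (ctx_rev.2 hC)
      (In_rev.2 hu) (rot_rev R) k)

/-- it suffices to prove a row when the arc `u x0` comes in -/
theorem row_of_in
    (h : ∀ (T X : Finset (V × V × V)) (D : V → V → Prop) (a b c : V) (Z : List V) (u : V)
      (x : Fin (n + 1) → V), MCw T D a b c → Ts T D a b c → Ctx T X D a b c Z → In X D Z u →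
      Rot T D u n x W → D (x 0) u → PCok T X D Z u x j) : Row V n W j := by
  intro T X D a b c Z u x hM hT hC hu R
  rcases (R.nb (x 0)).2 ⟨0, rfl⟩ with k | k
  · exact (pcok_rev hT).1 (h T X (Rev D) a b c Z u x (mcw_rev.2 hM) (ts_rev.2 hT) (ctx_rev.2 hC)
      (In_rev.2 hu) (rot_rev R) k)
  · exact h T X D a b c Z u x hM hT hC hu R k

end row

end Pool.Agent.H91.G4
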